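import Pool.Agent.Helper54.SR.Defs

/-!
# SR-C7 : lifting an embedding problem with elementary abelian kernel (not necessarily surjective)
-/

set_option autoImplicit false
open scoped Pointwise
open Polynomial Pool.Agent.Helper54.PW

namespace Pool.Agent.Helper54.SR

theorem wl_closure (K L₁ : Type) [Field K] [Field L₁] [Algebra K L₁]
    [FiniteDimensional K L₁] [Algebra.IsSeparable K L₁] :
    ∃ (L : Type) (_ : Field L) (_ : Algebra K L) (_ : FiniteDimensional K L)
      (_ : IsGalois K L), Nonempty (L₁ →ₐ[K] L) := by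
  obtain ⟨α, hα⟩ := Field.exists_primitive_element K L₁
  have hsep : (minpoly K α).Separable := Algebra.IsSeparable.isSeparable K α
  refine ⟨(minpoly K α).SplittingField, inferInstance, inferInstance, inferInstance,
    IsGalois.of_separable_splitting_field hsep, ?_⟩
  refine IntermediateField.nonempty_algHom_of_adjoin_splits (S := {α}) ?_ hα
  intro s hs
  rw [Set.mem_singleton_iff] at hs
  subst hs
  exact ⟨Algebra.IsIntegral.isIntegral _, SplittingField.splits _⟩

theorem wl_res {E L₁ L : Type} [Field E] [Field L₁] [Field L] [Algebra E L₁]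
    [Algebra E L] [Normal E L₁] (e : L₁ →ₐ[E] L) :
    ∃ res : (L ≃ₐ[E] L) →* (L₁ ≃ₐ[E] L₁), ∀ σ x, σ (e x) = e (res σ x) := by
  let : Algebra L₁ L := e.toRingHom.toAlgebra
  have : IsScalarTower E L₁ L := IsScalarTower.of_algebraMap_eq fun x => (e.commutes x).symm
  exact ⟨AlgEquiv.restrictNormalHom L₁, fun σ x => (AlgEquiv.restrictNormal_commutes σ L₁ x).symm⟩

theorem wl_main {K F : Type} [Field K] [Field F] [Algebra K F] [FiniteDimensional K F]
    [IsGalois K F] {ℓ : ℕ} (hℓ : ℓ.Prime) {G : Type} [Group G] [Finite G]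
    (V : Subgroup G) (hVℓ : ∀ a : V, a ^ ℓ = 1)
    (act : G →* (F ≃ₐ[K] F)) (hact : Function.Surjective act)
    (hker : ∀ g, act g = 1 ↔ g ∈ V)
    (hlift : ∀ (E : Type) [Field E] [Algebra K E] [FiniteDimensional K E] [Algebra E F]
      [FiniteDimensional E F] [IsGalois E F] (Γ : Type) [Group Γ] [Finite Γ], IsPGroup ℓ Γ →
      ∀ act' : Γ →* (F ≃ₐ[E] F), Function.Surjective act' →
      ∃ (L : Type) (_ : Field L) (_ : Algebra E L) (_ : FiniteDimensional E L)
      (_ : IsGalois E L) (j : F →ₐ[E] L) (ρ : (L ≃ₐ[E] L) →* Γ),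
      ∀ σ x, σ (j x) = j (act' (ρ σ) x))
    (hgas : ∀ {Δ : Type} [Group Δ] [Finite Δ] (q : Δ →* (F ≃ₐ[K] F)) (H : Subgroup Δ),
      ¬ ℓ ∣ H.index → ∀ ρH : H →* G, (∀ h : H, act (ρH h) = q h) →
      ∃ ρ : Δ →* G, ∀ x, act (ρ x) = q x) :
    ∃ (L : Type) (_ : Field L) (_ : Algebra K L) (_ : FiniteDimensional K L)
      (_ : IsGalois K L) (i : F →ₐ[K] L) (ρ : (L ≃ₐ[K] L) →* G),
      ∀ (σ : L ≃ₐ[K] L) (x : F), σ (i x) = i (act (ρ σ) x) := by
  have : Fact ℓ.Prime := ⟨hℓ⟩
  obtain ⟨S⟩ : Nonempty (Sylow ℓ (F ≃ₐ[K] F)) := inferInstance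
  set E : IntermediateField K F := IntermediateField.fixedField (S : Subgroup (F ≃ₐ[K] F))
    with hE
  have hfix : E.fixingSubgroup = (S : Subgroup (F ≃ₐ[K] F)) :=
    IntermediateField.fixingSubgroup_fixedField _
  have hidx : ¬ ℓ ∣ E.fixingSubgroup.index := by
    rw [hfix]
    exact S.not_dvd_index
  have hfin : Module.finrank K E = E.fixingSubgroup.index :=
    IntermediateField.finrank_eq_fixingSubgroup_index F E
  -- the group
  let Γ : Subgroup G := E.fixingSubgroup.comap act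
  have hΓ : IsPGroup ℓ Γ := by
    rintro ⟨g, hg⟩
    have hg' : act g ∈ (S : Subgroup (F ≃ₐ[K] F)) := by
      rw [← hfix]
      exact hg
    obtain ⟨n, hn⟩ := S.isPGroup' ⟨act g, hg'⟩
    have hn' : (act g) ^ ℓ ^ n = 1 := congrArg Subtype.val hn
    rw [← map_pow, hker] at hn'
    have h1 := hVℓ ⟨g ^ ℓ ^ n, hn'⟩
    have h2 : (g ^ ℓ ^ n) ^ ℓ = 1 := congrArg Subtype.val h1
    refine ⟨n + 1, Subtype.ext ?_⟩
    show g ^ ℓ ^ (n + 1) = 1
    rw [pow_succ, pow_mul, h2]
  let act₀ : Γ →* E.fixingSubgroup :=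
    (act.comp Γ.subtype).codRestrict E.fixingSubgroup (fun g => g.2)
  let act' : Γ →* (F ≃ₐ[E] F) := (IntermediateField.fixingSubgroupEquiv E).toMonoidHom.comp act₀
  have hact'ap : ∀ (g : Γ) (x : F), act' g x = act g x := fun g x => rfl
  have hact' : Function.Surjective act' := by
    intro τ
    obtain ⟨g, hg⟩ := hact (τ.restrictScalars K)
    have hgm : act g ∈ E.fixingSubgroup := by
      rw [hg, IntermediateField.mem_fixingSubgroup_iff]
      intro x hx
      exact τ.commutes ⟨x, hx⟩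
    refine ⟨⟨g, hgm⟩, ?_⟩
    ext x
    rw [hact'ap]
    show act g x = τ x
    rw [hg]
    rfl
  obtain ⟨L₁, _, _, _, _, j₁, ρ₁, h₁⟩ := hlift E Γ hΓ act' hact'
  let : Algebra K L₁ := ((algebraMap E L₁).comp (algebraMap K E)).toAlgebra
  have : IsScalarTower K E L₁ := IsScalarTower.of_algebraMap_eq fun x => rfl
  have : FiniteDimensional K L₁ := FiniteDimensional.trans K E L₁
  have : Algebra.IsSeparable K L₁ := Algebra.IsSeparable.trans K E L₁
  obtain ⟨L, _, _, _, _, ⟨e⟩⟩ := wl_closure K L₁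
  let : Algebra E L := (e.toRingHom.comp (algebraMap E L₁)).toAlgebra
  have : IsScalarTower K E L := IsScalarTower.of_algebraMap_eq fun x => (e.commutes x).symm
  let e' : L₁ →ₐ[E] L := { e.toRingHom with commutes' := fun x => rfl }
  obtain ⟨res, hres⟩ := wl_res e'
  let i : F →ₐ[K] L := e.comp (j₁.restrictScalars K)
  obtain ⟨q, hq⟩ := wl_res i
  let E' : IntermediateField K L := (IsScalarTower.toAlgHom K E L).fieldRange
  have hE'fin : Module.finrank K E' = Module.finrank K E :=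
    (AlgEquiv.ofInjectiveField (IsScalarTower.toAlgHom K E L)).symm.toLinearEquiv.finrank_eq
  let H : Subgroup (L ≃ₐ[K] L) := E'.fixingSubgroup
  have hH : ¬ ℓ ∣ H.index := by
    have h1 : Module.finrank K E' = E'.fixingSubgroup.index :=
      IntermediateField.finrank_eq_fixingSubgroup_index L E'
    show ¬ ℓ ∣ E'.fixingSubgroup.index
    rw [← h1, hE'fin, hfin]
    exact hidx
  have hHmem : ∀ h : H, ∀ x : E, (h : L ≃ₐ[K] L) (algebraMap E L x) = algebraMap E L x := by
    intro h x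
    exact (IntermediateField.mem_fixingSubgroup_iff _ _).1 h.2 _ ⟨x, rfl⟩
  let toE : H →* (L ≃ₐ[E] L) :=
    { toFun := fun h => AlgEquiv.ofRingEquiv (f := (h : L ≃ₐ[K] L).toRingEquiv) (hHmem h)
      map_one' := by ext x; rfl
      map_mul' := by intro a b; ext x; rfl }
  have htoE : ∀ (h : H) (x : L), toE h x = (h : L ≃ₐ[K] L) x := fun h x => rfl
  let ρH : H →* G := Γ.subtype.comp (ρ₁.comp (res.comp toE))
  have hρH : ∀ h : H, act (ρH h) = q h := by
    intro h
    ext x
    have hinj : ∀ a b : F, i a = i b → a = b := fun a b h => i.toRingHom.injective h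
    apply hinj
    rw [← hq]
    show i (act (ρ₁ (res (toE h))) x) = (h : L ≃ₐ[K] L) (e (j₁ x))
    rw [← htoE h (e (j₁ x))]
    show e (j₁ (act' (ρ₁ (res (toE h))) x)) = toE h (e' (j₁ x))
    rw [← h₁, hres]
    rfl
  obtain ⟨ρ, hρ⟩ := hgas q H hH ρH hρH
  refine ⟨L, inferInstance, inferInstance, inferInstance, inferInstance, i, ρ, ?_⟩
  intro σ x
  rw [hq, hρ]

end Pool.Agent.Helper54.SR
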